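import Pool.Agent.W613.GH.TA

set_option autoImplicit false

/-! # GH-LIM: the flux converges -/

open scoped ContDiff
open MeasureTheory Filter Topology Set Pool.Agent.W117.GH

noncomputable section

namespace Pool.Agent.W613.GHLIM

open Pool.Agent.W613.GH

theorem main : PropLIM := by
  intro a h ha hN
  have hX0 : Real.exp (h 0) < 1 := X_lt hN le_rfl
  have hXle : ∀ x, 0 ≤ x → Real.exp (h x) ≤ Real.exp (h 0) := fun x hx => X_anti hN le_rfl hx
  have hPm := (P_smono hN).monotoneOn
  -- the function Q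
  have hQm : StrictMonoOn (fun x => EE a h x + a / 2 * PP h x ^ 2 - 2 * PP h x) (Ici 0) :=
    smono_of (fun x _ => Q_deriv hN x) fun x _ => mul_pos (W_pos a h x) (Real.exp_pos _)
  have hQ0 : EE a h 0 + a / 2 * PP h 0 ^ 2 - 2 * PP h 0 = 0 := by rw [P_zero, E_zero]; ring
  have hQ1 : 0 < EE a h 1 + a / 2 * PP h 1 ^ 2 - 2 * PP h 1 := by
    have := hQm (mem_Ici.mpr le_rfl) (mem_Ici.mpr zero_le_one) zero_lt_one
    simp only at this
    rwa [hQ0] at this
  have hQnn : ∀ x, 0 ≤ x → 0 ≤ EE a h x + a / 2 * PP h x ^ 2 - 2 * PP h x := by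
    intro x hx
    have := hQm.monotoneOn (mem_Ici.mpr le_rfl) (mem_Ici.mpr hx) hx
    rwa [hQ0] at this
  -- the flux exceeds 3/a
  have hbig : ∃ x1, 1 ≤ x1 ∧ 3 / a < PP h x1 := by
    by_contra hcon
    push Not at hcon
    have hP1 : 0 < PP h 1 := P_pos hN one_pos
    obtain ⟨c0, hc0⟩ : ∃ c0, c0 = (1 - Real.exp (h 0)) * (PP h 1 / 2) / 2 := ⟨_, rfl⟩
    have hc0p : 0 < c0 := by
      rw [hc0]
      have : 0 < 1 - Real.exp (h 0) := by linarith
      positivity
    have hE : ∀ x, 1 ≤ x → PP h 1 / 2 ≤ EE a h x := by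
      intro x hx
      have k1 := hQnn x (by linarith)
      have k2 := hcon x hx
      rw [le_div_iff₀ ha] at k2
      have k3 : PP h 1 ≤ PP h x := hPm (mem_Ici.mpr zero_le_one)
        (mem_Ici.mpr (by linarith)) hx
      nlinarith
    have hm : MonotoneOn (fun x => PP h x - c0 * Real.log x) (Ici 1) := by
      refine mono_of (fun x hx => (P_deriv hN x).sub
        ((Real.hasDerivAt_log (by linarith : x ≠ 0)).const_mul c0)) fun x hx => ?_
      have hx0 : 0 < x := by linarith
      have k1 := hE x hx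
      rw [EE_eq] at k1
      have k2 := hXle x hx0.le
      have k3 : PP h 1 / 2 / x ≤ W a h x := by
        rw [div_le_iff₀ hx0]
        linarith
      have k4 : 0 < 1 - Real.exp (h 0) := by linarith
      have k5 := W_pos a h x
      have k6 : 0 < PP h 1 / 2 / x := by positivity
      have k7 : (1 - Real.exp (h 0)) * (PP h 1 / 2 / x) ≤ (1 - Real.exp (h x)) * W a h x :=
        mul_le_mul (by linarith) k3 k6.le (by linarith)
      have k8 : c0 * x⁻¹ = (1 - Real.exp (h 0)) * (PP h 1 / 2 / x) / 2 := by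
        rw [hc0]
        field_simp
      rw [k8]
      linarith
    obtain ⟨y, hy⟩ : ∃ y, y = Real.exp (3 / a / c0) := ⟨_, rfl⟩
    have hy1 : 1 ≤ y := by
      rw [hy]
      exact Real.one_le_exp (by positivity)
    have k1 := hm (mem_Ici.mpr le_rfl) (mem_Ici.mpr hy1) hy1
    simp only [Real.log_one, mul_zero, sub_zero] at k1
    have k2 := hcon y hy1
    rw [hy, Real.log_exp, mul_div_cancel₀ _ hc0p.ne', ← hy] at k1
    linarith
  obtain ⟨x1, hx11, hPx1⟩ := hbig
  have hx10 : 0 < x1 := by linarith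
  -- h tends to minus infinity
  have hh : Tendsto h atTop atBot := by
    have hm : AntitoneOn (fun x => h x + 3 / a / 2 * Real.log x) (Ici x1) := by
      refine anti_of (fun x hx => (hd hN x).add
        ((Real.hasDerivAt_log (by linarith : x ≠ 0)).const_mul (3 / a / 2))) fun x hx => ?_
      have hx0 : 0 < x := by linarith
      have k1 : PP h x1 ≤ PP h x := hPm (mem_Ici.mpr hx10.le) (mem_Ici.mpr hx0.le) hx
      have k2 : deriv h x = -(PP h x / 2) * x⁻¹ := by
        unfold PP
        field_simp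
      rw [k2]
      have k3 : 0 < x⁻¹ := by positivity
      nlinarith
    have k1 : Tendsto (fun x => (h x1 + 3 / a / 2 * Real.log x1) - 3 / a / 2 * Real.log x)
        atTop atBot := by
      apply tendsto_atBot_add_const_left
      apply tendsto_neg_atTop_atBot.comp
      exact Real.tendsto_log_atTop.const_mul_atTop (by positivity)
    refine tendsto_atBot_mono' _ ?_ k1
    filter_upwards [eventually_ge_atTop x1] with x hx
    have k2 := hm (mem_Ici.mpr le_rfl) (mem_Ici.mpr hx) hx
    simp only at k2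
    linarith
  obtain ⟨x2, hx2h, hx21⟩ := ((hh.eventually_le_atBot (Real.log (1 / 6))).and
    (eventually_ge_atTop x1)).exists
  have hX2 : Real.exp (h x2) ≤ 1 / 6 := by
    rw [← Real.exp_log (show (0 : ℝ) < 1 / 6 by norm_num)]
    exact Real.exp_le_exp.mpr hx2h
  have hx20 : 0 < x2 := by linarith
  have hPx2 : 3 / a < PP h x2 := lt_of_lt_of_le hPx1
    (hPm (mem_Ici.mpr hx10.le) (mem_Ici.mpr hx20.le) hx21)
  obtain ⟨hk, hanti⟩ := trap ha hN hx20.le hPx2 hX2
  -- E tends to zero
  have hE0 : Tendsto (EE a h) atTop (𝓝 0) := by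
    have hm : AntitoneOn (fun x => Real.exp (1 / 4 * Real.log x) * EE a h x) (Ici x2) := by
      refine anti_of (fun x hx => (((Real.hasDerivAt_log
        (by linarith : x ≠ 0)).const_mul (1 / 4)).exp).mul (E_deriv hN x)) fun x hx => ?_
      have hx0 : 0 < x := by linarith
      obtain ⟨-, -, k3⟩ := hk x hx
      have k4 := Real.exp_pos (1 / 4 * Real.log x)
      have k5 : 1 / 4 * x⁻¹ * EE a h x = W a h x / 4 := by
        rw [EE_eq]
        field_simp
      have k6 : Real.exp (1 / 4 * Real.log x) * (1 / 4 * x⁻¹) * EE a h x +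
          Real.exp (1 / 4 * Real.log x) *
            (W a h x * (1 - a / 2 * (1 - Real.exp (h x)) * PP h x)) =
          Real.exp (1 / 4 * Real.log x) * (1 / 4 * x⁻¹ * EE a h x +
            (W a h x * (1 - a / 2 * (1 - Real.exp (h x)) * PP h x))) := by ring
      rw [k6, k5]
      exact mul_nonpos_of_nonneg_of_nonpos k4.le (by linarith)
    have k1 : Tendsto (fun x => (Real.exp (1 / 4 * Real.log x2) * EE a h x2) *
        Real.exp (-(1 / 4 * Real.log x))) atTop (𝓝 0) := by
      have k2 : Tendsto (fun x => Real.exp (-(1 / 4 * Real.log x))) atTop (𝓝 0) :=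
        Real.tendsto_exp_neg_atTop_nhds_zero.comp
          (Real.tendsto_log_atTop.const_mul_atTop (by norm_num))
      simpa using k2.const_mul (Real.exp (1 / 4 * Real.log x2) * EE a h x2)
    refine squeeze_zero' ?_ ?_ k1
    · filter_upwards [eventually_ge_atTop 0] with x hx
      exact E_nonneg a h hx
    · filter_upwards [eventually_ge_atTop x2] with x hx
      have k2 := hm (mem_Ici.mpr le_rfl) (mem_Ici.mpr hx) hx
      simp only at k2
      have k3 : EE a h x = Real.exp (1 / 4 * Real.log x) * EE a h x *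
          Real.exp (-(1 / 4 * Real.log x)) := by
        rw [mul_comm (Real.exp (1 / 4 * Real.log x)), mul_assoc, ← Real.exp_add]
        simp
      rw [k3]
      exact mul_le_mul_of_nonneg_right k2 (Real.exp_pos _).le
  -- the limit
  obtain ⟨c, hc, hcle⟩ := Pool.Agent.W613.GHTA.conv_of_mono
    (B := PP h x2 + 2 * EE a h x2) hPm (fun x hx => by
      rcases le_total x x2 with hxx | hxx
      · have k1 := hPm (mem_Ici.mpr hx) (mem_Ici.mpr hx20.le) hxx
        have k2 := E_nonneg a h hx20.le
        linarith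
      · have k1 := hanti (mem_Ici.mpr le_rfl) (mem_Ici.mpr hxx) hxx
        have k2 := E_nonneg a h hx
        simp only at k1
        linarith)
  have hcpos : 0 < c := (P_pos hN one_pos).trans_le (hcle 1 zero_le_one)
  have hlimS : Tendsto (fun x => EE a h x + a / 2 * PP h x ^ 2) atTop (𝓝 (a / 2 * c ^ 2)) := by
    have := hE0.add ((hc.pow 2).const_mul (a / 2))
    simpa using this
  have hlimQ : Tendsto (fun x => EE a h x + a / 2 * PP h x ^ 2 - 2 * PP h x) atTop
      (𝓝 (a / 2 * c ^ 2 - 2 * c)) := hlimS.sub (hc.const_mul 2)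
  have hc4 : 4 / a < c := by
    have k1 : EE a h 1 + a / 2 * PP h 1 ^ 2 - 2 * PP h 1 ≤ a / 2 * c ^ 2 - 2 * c := by
      refine ge_of_tendsto hlimQ ?_
      filter_upwards [eventually_ge_atTop 1] with x hx
      exact hQm.monotoneOn (mem_Ici.mpr zero_le_one) (mem_Ici.mpr (by linarith)) hx
    rw [div_lt_iff₀ ha]
    have k2 : 0 < (a / 2 * c - 2) * c := by nlinarith
    have k3 := (mul_pos_iff_of_pos_right hcpos).mp k2
    linarith
  refine ⟨c, hc4, hc, hcle, ?_, ?_, hE0, hh⟩
  · -- the upper bound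
    have hX1 : 0 < 1 - Real.exp (h 0) := by linarith
    obtain ⟨r, hr⟩ : ∃ r, r = Real.exp (h 0) / (1 - Real.exp (h 0)) := ⟨_, rfl⟩
    have hm : MonotoneOn (fun x => 2 * r * PP h x -
        (EE a h x + a / 2 * PP h x ^ 2 - 2 * PP h x)) (Ici 0) := by
      refine mono_of (fun x _ => ((P_deriv hN x).const_mul (2 * r)).sub (Q_deriv hN x))
        fun x hx => ?_
      have k1 := W_pos a h x
      have k2 := hXle x hx
      have k3 : Real.exp (h x) ≤ r * (1 - Real.exp (h x)) := by
        rw [hr, div_mul_eq_mul_div, le_div_iff₀ hX1]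
        have := Real.exp_pos (h x)
        nlinarith
      nlinarith
    have k1 : 0 ≤ 2 * r * c - (a / 2 * c ^ 2 - 2 * c) := by
      refine ge_of_tendsto ((hc.const_mul (2 * r)).sub hlimQ) ?_
      filter_upwards [eventually_ge_atTop 0] with x hx
      have k2 := hm (mem_Ici.mpr le_rfl) (mem_Ici.mpr hx) hx
      simp only at k2
      rw [hQ0, P_zero] at k2
      linarith
    have k2 : 0 ≤ (2 * r + 2 - a / 2 * c) * c := by nlinarith
    have k3 := nonneg_of_mul_nonneg_left k2 hcpos
    have k4 : r + 1 = 1 / (1 - Real.exp (h 0)) := by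
      rw [hr]
      field_simp
      ring
    have k5 : a * c ≤ 4 * (1 / (1 - Real.exp (h 0))) := by
      rw [← k4]
      linarith
    rw [div_div, le_div_iff₀ (by positivity)]
    rw [mul_one_div, le_div_iff₀ hX1] at k5
    linarith
  · intro x hx
    have k1 : EE a h x + a / 2 * PP h x ^ 2 ≤ a / 2 * c ^ 2 := by
      refine ge_of_tendsto hlimS ?_
      filter_upwards [eventually_ge_atTop x] with y hy
      exact (mono_of (x0 := 0) (fun x _ => S_deriv hN x) fun x _ => (W_pos a h x).le)
        (mem_Ici.mpr hx) (mem_Ici.mpr (hx.trans hy)) hy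
    have k2 : 0 ≤ a / 2 * PP h x ^ 2 := by positivity
    linarith

end Pool.Agent.W613.GHLIM
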