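import Pool.Agent.W613.GH.Base

set_option autoImplicit false

/-! # GH-TA: convergence of `h + (c/2) log x` -/

open scoped ContDiff
open MeasureTheory Filter Topology Set Pool.Agent.W117.GH

noncomputable section

namespace Pool.Agent.W613.GHTA

open Pool.Agent.W613.GH

/-- convergence of a monotone bounded function on a half line -/
theorem conv_of_mono {f : ℝ → ℝ} {x0 B : ℝ} (hf : MonotoneOn f (Ici x0))
    (hB : ∀ x, x0 ≤ x → f x ≤ B) : ∃ l, Tendsto f atTop (𝓝 l) ∧ ∀ x, x0 ≤ x → f x ≤ l := by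
  have hm : Monotone fun x => f (max x x0) := by
    intro x y hxy
    exact hf (mem_Ici.mpr (le_max_right _ _)) (mem_Ici.mpr (le_max_right _ _))
      (max_le_max hxy le_rfl)
  have hb : BddAbove (range fun x => f (max x x0)) := by
    refine ⟨B, ?_⟩
    rintro _ ⟨x, rfl⟩
    exact hB _ (le_max_right _ _)
  have h1 := tendsto_atTop_ciSup hm hb
  refine ⟨⨆ x, f (max x x0), h1.congr' ?_, fun x hx => ?_⟩
  · filter_upwards [eventually_ge_atTop x0] with x hx
    rw [max_eq_left hx]
  · have h2 := le_ciSup hb x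
    simp only [max_eq_left hx] at h2
    exact h2

theorem main (h1 : PropLIM) (h2 : PropTR) : PropTA := by
  intro a c h ha hc hN hP
  obtain ⟨c', -, hc', hPc, -, -, hE, hh⟩ := h1 a h ha hN
  have hcc : c' = c := tendsto_nhds_unique hc' hP
  subst hcc
  have h3 : 3 / a < c' := by
    have : 3 / a < 4 / a := by
      rw [div_lt_div_iff_of_pos_right ha]
      norm_num
    linarith
  -- a good point
  have hev1 : ∀ᶠ x in atTop, 3 / a < PP h x := hP.eventually (lt_mem_nhds h3)
  have hev2 : ∀ᶠ x in atTop, h x < Real.log (1 / 6) := hh.eventually_lt_atBot _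
  obtain ⟨x0, hx1, hx2, hx0⟩ := (hev1.and (hev2.and (eventually_gt_atTop 0))).exists
  have hXs : Real.exp (h x0) < 1 / 6 := by
    rw [← Real.exp_log (show (0 : ℝ) < 1 / 6 by norm_num)]
    exact Real.exp_lt_exp.mpr hx2
  have hX : Real.exp (h x0) ≤ 1 / 6 := hXs.le
  obtain ⟨hk, -⟩ := trap ha hN hx0.le hx1 hX
  have hcP : ∀ x, x0 ≤ x → c' ≤ PP h x + 2 * EE a h x := by
    intro x hx
    obtain ⟨k1, -, -⟩ := hk x hx
    exact h2 a c' h x ha hN hP (hx0.trans_le hx) k1 ((X_anti hN hx0.le hx).trans_lt hXs)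
  have hG : ∀ x, x0 ≤ x → HasDerivAt (fun x => h x + c' / 2 * Real.log x)
      ((c' - PP h x) / (2 * x)) x := by
    intro x hx
    have hx' : x ≠ 0 := (hx0.trans_le hx).ne'
    have := (hd hN x).add ((Real.hasDerivAt_log hx').const_mul (c' / 2))
    have e : deriv h x + c' / 2 * x⁻¹ = (c' - PP h x) / (2 * x) := by
      unfold PP
      field_simp
      ring
    rw [e] at this
    exact this
  have hmono : MonotoneOn (fun x => h x + c' / 2 * Real.log x) (Ici x0) :=
    mono_of hG fun x hx => by
      have hx' : 0 < x := hx0.trans_le hx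
      have := hPc x hx'.le
      apply div_nonneg <;> linarith
  have hanti : AntitoneOn (fun x => h x + c' / 2 * Real.log x + 4 * EE a h x) (Ici x0) := by
    refine anti_of (fun x hx => (hG x hx).add ((E_deriv hN x).const_mul 4)) fun x hx => ?_
    have hx' : 0 < x := hx0.trans_le hx
    obtain ⟨-, -, k3⟩ := hk x hx
    have k4 := hcP x hx
    have k5 : (c' - PP h x) / (2 * x) ≤ W a h x := by
      rw [div_le_iff₀ (by positivity)]
      rw [EE_eq] at k4
      linarith
    linarith
  obtain ⟨l, hl, -⟩ := conv_of_mono (B := h x0 + c' / 2 * Real.log x0 + 4 * EE a h x0) hmono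
    (fun x hx => by
      have k1 := hanti (mem_Ici.mpr le_rfl) (mem_Ici.mpr hx) hx
      have k2 := E_nonneg a h (hx0.le.trans hx)
      simp only at k1
      linarith)
  exact ⟨l, hl⟩

end Pool.Agent.W613.GHTA
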