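import Pool.Agent.W613.GH.Base

set_option autoImplicit false

/-! # GH-TR: trapping -/

open scoped ContDiff
open MeasureTheory Filter Topology Set Pool.Agent.W117.GH

noncomputable section

namespace Pool.Agent.W613.GHTR

open Pool.Agent.W613.GH

theorem main : PropTR := by
  intro a c h x0 ha hN hc h0 hP hX
  obtain ⟨-, h2⟩ := trap ha hN h0.le hP hX.le
  refine le_of_tendsto hc ?_
  filter_upwards [eventually_ge_atTop x0] with x hx
  have h3 := h2 (mem_Ici.mpr le_rfl) (mem_Ici.mpr hx) hx
  have h4 := E_nonneg a h (h0.le.trans hx)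
  simp only at h3
  linarith

end Pool.Agent.W613.GHTR
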