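import Pool.Agent.W117.GH.Stm

set_option autoImplicit false

/-! # Common facts on negative profiles -/

open scoped ContDiff
open MeasureTheory Filter Topology Set Pool.Agent.W117.GH

noncomputable section

namespace Pool.Agent.W613.GH

theorem mono_of {f f' : ℝ → ℝ} {x0 : ℝ} (hf : ∀ x, x0 ≤ x → HasDerivAt f (f' x) x)
    (h0 : ∀ x, x0 ≤ x → 0 ≤ f' x) : MonotoneOn f (Ici x0) := by
  refine monotoneOn_of_deriv_nonneg (convex_Ici x0)
    (fun x hx => (hf x hx).continuousAt.continuousWithinAt) ?_ ?_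
  · intro x hx
    rw [interior_Ici] at hx
    exact (hf x (le_of_lt hx)).differentiableAt.differentiableWithinAt
  · intro x hx
    rw [interior_Ici] at hx
    rw [(hf x (le_of_lt hx)).deriv]
    exact h0 x (le_of_lt hx)

theorem anti_of {f f' : ℝ → ℝ} {x0 : ℝ} (hf : ∀ x, x0 ≤ x → HasDerivAt f (f' x) x)
    (h0 : ∀ x, x0 ≤ x → f' x ≤ 0) : AntitoneOn f (Ici x0) := by
  refine antitoneOn_of_deriv_nonpos (convex_Ici x0)
    (fun x hx => (hf x hx).continuousAt.continuousWithinAt) ?_ ?_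
  · intro x hx
    rw [interior_Ici] at hx
    exact (hf x (le_of_lt hx)).differentiableAt.differentiableWithinAt
  · intro x hx
    rw [interior_Ici] at hx
    rw [(hf x (le_of_lt hx)).deriv]
    exact h0 x (le_of_lt hx)

theorem smono_of {f f' : ℝ → ℝ} {x0 : ℝ} (hf : ∀ x, x0 ≤ x → HasDerivAt f (f' x) x)
    (h0 : ∀ x, x0 ≤ x → 0 < f' x) : StrictMonoOn f (Ici x0) := by
  refine strictMonoOn_of_deriv_pos (convex_Ici x0)
    (fun x hx => (hf x hx).continuousAt.continuousWithinAt) ?_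
  intro x hx
  rw [interior_Ici] at hx
  rw [(hf x (le_of_lt hx)).deriv]
  exact h0 x (le_of_lt hx)

/-- the weight -/
def W (a : ℝ) (h : ℝ → ℝ) (x : ℝ) : ℝ := Real.exp (a * (h x - Real.exp (h x)))

theorem W_pos (a : ℝ) (h : ℝ → ℝ) (x : ℝ) : 0 < W a h x := Real.exp_pos _

theorem EE_eq (a : ℝ) (h : ℝ → ℝ) (x : ℝ) : EE a h x = x * W a h x := rfl

variable {a : ℝ} {h : ℝ → ℝ}

theorem hd (hN : Neg a h) (x : ℝ) : HasDerivAt h (deriv h x) x :=
  ((hN.smooth.differentiable (by simp)) x).hasDerivAt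

theorem P_deriv (hN : Neg a h) (x : ℝ) :
    HasDerivAt (PP h) (1 / 2 * W a h x * (1 - Real.exp (h x))) x := by
  have h1 := (hN.ode x).const_mul (-2)
  have e : -2 * (-(1 / 4) * fa a (h x)) = 1 / 2 * W a h x * (1 - Real.exp (h x)) := by
    unfold fa W
    ring
  rw [e] at h1
  exact h1

theorem E_deriv (hN : Neg a h) (x : ℝ) :
    HasDerivAt (EE a h) (W a h x * (1 - a / 2 * (1 - Real.exp (h x)) * PP h x)) x := by
  have h1 := hd hN x
  have h2 : HasDerivAt (fun x => a * (h x - Real.exp (h x)))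
      (a * (deriv h x - Real.exp (h x) * deriv h x)) x := (h1.sub h1.exp).const_mul a
  have h3 := (hasDerivAt_id x).mul h2.exp
  have e : 1 * Real.exp (a * (h x - Real.exp (h x))) + id x * (Real.exp (a * (h x -
      Real.exp (h x))) * (a * (deriv h x - Real.exp (h x) * deriv h x))) =
      W a h x * (1 - a / 2 * (1 - Real.exp (h x)) * PP h x) := by
    unfold W PP
    simp only [id]
    ring
  rw [e] at h3
  exact h3

theorem S_deriv (hN : Neg a h) (x : ℝ) :
    HasDerivAt (fun x => EE a h x + a / 2 * PP h x ^ 2) (W a h x) x := by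
  have h1 := (E_deriv hN x).add (((P_deriv hN x).pow 2).const_mul (a / 2))
  have e : W a h x * (1 - a / 2 * (1 - Real.exp (h x)) * PP h x) +
      a / 2 * (((2 : ℕ) : ℝ) * PP h x ^ (2 - 1) * (1 / 2 * W a h x * (1 - Real.exp (h x)))) =
      W a h x := by
    norm_num
    ring
  rw [e] at h1
  exact h1

theorem Q_deriv (hN : Neg a h) (x : ℝ) :
    HasDerivAt (fun x => EE a h x + a / 2 * PP h x ^ 2 - 2 * PP h x)
      (W a h x * Real.exp (h x)) x := by
  have h1 := (S_deriv hN x).sub ((P_deriv hN x).const_mul 2)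
  have e : W a h x - 2 * (1 / 2 * W a h x * (1 - Real.exp (h x))) =
      W a h x * Real.exp (h x) := by ring
  rw [e] at h1
  exact h1

theorem X_lt (hN : Neg a h) {x : ℝ} (hx : 0 ≤ x) : Real.exp (h x) < 1 := by
  rw [Real.exp_lt_one_iff]
  exact hN.neg x hx

theorem P_zero : PP h 0 = 0 := by simp [PP]

theorem E_zero : EE a h 0 = 0 := by simp [EE]

theorem P_smono (hN : Neg a h) : StrictMonoOn (PP h) (Ici 0) :=
  smono_of (fun x _ => P_deriv hN x) fun x hx => by
    have h1 := W_pos a h x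
    have h2 := X_lt hN hx
    have h3 : 0 < 1 - Real.exp (h x) := by linarith
    positivity

theorem P_pos (hN : Neg a h) {x : ℝ} (hx : 0 < x) : 0 < PP h x := by
  have := P_smono hN (mem_Ici.mpr le_rfl) (mem_Ici.mpr hx.le) hx
  rwa [P_zero] at this

theorem P_nonneg (hN : Neg a h) {x : ℝ} (hx : 0 ≤ x) : 0 ≤ PP h x := by
  rcases hx.eq_or_lt with h0 | h0
  · rw [← h0, P_zero]
  · exact (P_pos hN h0).le

theorem E_nonneg (a : ℝ) (h : ℝ → ℝ) {x : ℝ} (hx : 0 ≤ x) : 0 ≤ EE a h x :=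
  mul_nonneg hx (W_pos a h x).le

theorem h_anti (hN : Neg a h) : AntitoneOn h (Ici 0) :=
  anti_of (fun x _ => hd hN x) fun x hx => (hN.decr x hx).le

theorem X_anti (hN : Neg a h) {x y : ℝ} (hx : 0 ≤ x) (hxy : x ≤ y) :
    Real.exp (h y) ≤ Real.exp (h x) :=
  Real.exp_le_exp.mpr (h_anti hN (mem_Ici.mpr hx) (mem_Ici.mpr (hx.trans hxy)) hxy)

/-- the trapping region -/
theorem trap (ha : 0 < a) (hN : Neg a h) {x0 : ℝ} (h0 : 0 ≤ x0) (hP : 3 / a < PP h x0)
    (hX : Real.exp (h x0) ≤ 1 / 6) :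
    (∀ x, x0 ≤ x → 3 / a < PP h x ∧ Real.exp (h x) ≤ 1 / 6 ∧
      W a h x * (1 - a / 2 * (1 - Real.exp (h x)) * PP h x) ≤ -(W a h x / 4)) ∧
    AntitoneOn (fun x => PP h x + 2 * EE a h x) (Ici x0) := by
  have key : ∀ x, x0 ≤ x → 3 / a < PP h x ∧ Real.exp (h x) ≤ 1 / 6 ∧
      W a h x * (1 - a / 2 * (1 - Real.exp (h x)) * PP h x) ≤ -(W a h x / 4) := by
    intro x hx
    have h1 : 3 / a < PP h x := lt_of_lt_of_le hP
      ((P_smono hN).monotoneOn (mem_Ici.mpr h0) (mem_Ici.mpr (h0.trans hx)) hx)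
    have h2 : Real.exp (h x) ≤ 1 / 6 := (X_anti hN h0 hx).trans hX
    refine ⟨h1, h2, ?_⟩
    have h3 := W_pos a h x
    have h4 : 3 < a * PP h x := by
      rw [div_lt_iff₀ ha] at h1
      linarith
    have h5 : 5 / 2 ≤ (1 - Real.exp (h x)) * (a * PP h x) := by nlinarith
    have h6 : 1 - a / 2 * (1 - Real.exp (h x)) * PP h x ≤ -(1 / 4) := by nlinarith
    nlinarith
  refine ⟨key, anti_of (fun x _ => (P_deriv hN x).add ((E_deriv hN x).const_mul 2)) ?_⟩
  intro x hx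
  obtain ⟨-, -, h3⟩ := key x hx
  have h4 := W_pos a h x
  have h5 := Real.exp_pos (h x)
  nlinarith

end Pool.Agent.W613.GH
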